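import Pool.Agent.K3h75.ND.StmA

/-!
# A good module is a module all whose charts have the fraction field `F` (ND brick HM)
-/

set_option autoImplicit false

open scoped Pointwise

namespace Pool.Agent.K3h57.ND

open Pool.Agent.K3h75.ND Pool.Agent.H918R2.Quad Pool.Agent.W418

theorem t_HM : S_HM := by
  intro O K F _ _ _ _ _ _ _ _ _ n x hx0 hgen hM
  obtain ⟨D, M, hD, hFG, hne, -, hMbot, hreg⟩ := hM
  have hOK : Function.Injective (algebraMap O K) := IsFractionRing.injective O K
  have hOF : Function.Injective (algebraMap O F) := by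
    rw [IsScalarTower.algebraMap_eq O K F]
    exact (algebraMap K F).injective.comp hOK
  obtain ⟨e, rfl⟩ : ∃ e, D = e + 1 := ⟨D - 1, by omega⟩
  have hxG : ∀ i, x i ∈ Submodule.span O (Set.range x ^ (e + 1)) := by
    intro i
    apply Submodule.subset_span
    have h0 : (1 : F) ∈ Set.range x := ⟨0, hx0⟩
    have h1 : (1 : F) ^ e ∈ Set.range x ^ e := Set.pow_mem_pow h0
    rw [one_pow] at h1
    rw [pow_succ]
    exact ⟨1, h1, x i, ⟨i, rfl⟩, one_mul _⟩
  have h1G : (1 : F) ∈ Submodule.span O (Set.range x ^ (e + 1)) := by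
    have := hxG 0
    rwa [hx0] at this
  obtain ⟨t, ht0, htM⟩ := hMbot 1 h1G
  have htF : algebraMap O F t ≠ 0 := fun h => ht0 (hOF (by rw [h, map_zero]))
  refine ⟨M, hFG, hne, ?_, hreg⟩
  intro f hfM hf0 y
  have hdivM : ∀ u ∈ M, u / f ∈ chart O M f := fun u hu =>
    Algebra.subset_adjoin ⟨u, hu, rfl⟩
  have hy : y ∈ IntermediateField.adjoin K (Set.range x) := by
    rw [hgen]; trivial
  induction hy using IntermediateField.adjoin_induction with
  | mem y hy =>
    obtain ⟨i, rfl⟩ := hy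
    obtain ⟨s, hs0, hsM⟩ := hMbot (x i) (hxG i)
    have hsF : algebraMap O F s ≠ 0 := fun h => hs0 (hOF (by rw [h, map_zero]))
    refine ⟨(s • x i) / f * algebraMap O F t,
      Subalgebra.mul_mem _ (hdivM _ hsM) (Subalgebra.algebraMap_mem _ _),
      (t • 1) / f * algebraMap O F s,
      Subalgebra.mul_mem _ (hdivM _ htM) (Subalgebra.algebraMap_mem _ _), ?_, ?_⟩
    · rw [Algebra.smul_def, mul_one]
      exact mul_ne_zero (div_ne_zero htF hf0) hsF
    · rw [Algebra.smul_def, Algebra.smul_def, mul_one]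
      field_simp
  | algebraMap k =>
    obtain ⟨b, c, hc, rfl⟩ := IsFractionRing.div_surjective (A := O) k
    have hc0 : c ≠ 0 := nonZeroDivisors.ne_zero hc
    refine ⟨algebraMap O F b, Subalgebra.algebraMap_mem _ _, algebraMap O F c,
      Subalgebra.algebraMap_mem _ _, fun h => hc0 (hOF (by rw [h, map_zero])), ?_⟩
    rw [map_div₀, ← IsScalarTower.algebraMap_apply, ← IsScalarTower.algebraMap_apply]
  | add y z _ _ hy hz =>
    obtain ⟨b, hb, c, hc, hc0, rfl⟩ := hy
    obtain ⟨b', hb', c', hc', hc0', rfl⟩ := hz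
    refine ⟨b * c' + b' * c, Subalgebra.add_mem _ (Subalgebra.mul_mem _ hb hc')
      (Subalgebra.mul_mem _ hb' hc), c * c', Subalgebra.mul_mem _ hc hc',
      mul_ne_zero hc0 hc0', ?_⟩
    field_simp
  | inv y _ hy =>
    obtain ⟨b, hb, c, hc, hc0, rfl⟩ := hy
    by_cases hb0 : b = 0
    · refine ⟨0, Subalgebra.zero_mem _, 1, Subalgebra.one_mem _, one_ne_zero, ?_⟩
      rw [hb0]; simp
    · exact ⟨c, hc, b, hb, hb0, by rw [inv_div]⟩
  | mul y z _ _ hy hz =>
    obtain ⟨b, hb, c, hc, hc0, rfl⟩ := hy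
    obtain ⟨b', hb', c', hc', hc0', rfl⟩ := hz
    refine ⟨b * b', Subalgebra.mul_mem _ hb hb', c * c', Subalgebra.mul_mem _ hc hc',
      mul_ne_zero hc0 hc0', ?_⟩
    field_simp

end Pool.Agent.K3h57.ND
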